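import Pool.Agent.Helper533.Deny.Final

/-!
Deny's theorem for `𝒜`-superharmonic functions: every `𝒜`-polar `G_δ` set of `ℝⁿ` is exactly the
infinity set of some `𝒜`-superharmonic function on `ℝⁿ`.
-/

open MeasureTheory Filter Topology Set
open Pool.Agent.Helper533.Polar.Stmt (Sp IsOperator)
open Pool.Agent.Helper533.Deny

namespace Pool.Agent.Results.MP_9b58c5_an.PolarGdeltaInfinitySet

/-- For every `n ≥ 1`, `1 < p < ∞`, every locally integrable `w ≥ 0` such that `dμ = w dx` is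
`p`-admissible (doubling, weighted `(1, p)`-Poincaré inequality on balls), and every `𝒜` satisfying
the structure conditions: every `𝒜`-polar `G_δ` set `E ⊆ ℝⁿ` equals `{x : u x = ∞}` for some
`𝒜`-superharmonic function `u` on `ℝⁿ`. -/
theorem result :
    ∀ (n : ℕ), 1 ≤ n → ∀ (p : ℝ), 1 < p → ∀ (w : Sp n → ℝ), IsAdmissible p w →
    ∀ (α β : ℝ) (𝒜 : Sp n → Sp n → Sp n), IsOperator p α β w 𝒜 →
    ∀ E : Set (Sp n), IsGδ E → IsPolar 𝒜 p w E →
      ∃ u : Sp n → EReal, IsSuperharmonic 𝒜 p w univ u ∧ {x | u x = ⊤} = E := by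
  intro n hn p hp w hw α β 𝒜 hA E hE hpol
  exact Pool.Agent.Helper533.Polar.deny_theorem hn hp hw hA hE hpol

end Pool.Agent.Results.MP_9b58c5_an.PolarGdeltaInfinitySet
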